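import Pool.Agent.Q147.MM.Stm

/-!
# Project MM, job A2
-/

set_option autoImplicit false

namespace Pool.Agent.Q150.MM

open Finset Filter Topology
open Pool.Agent.Q147.MM

theorem hasDeriv (κ t : ℝ) (ht : 1 < t) :
    HasDerivAt (fun t : ℝ => t * (Real.log t) ^ (-κ))
      ((Real.log t) ^ (-κ) * (1 - κ / Real.log t)) t := by
  have hl : 0 < Real.log t := Real.log_pos ht
  have h1 : HasDerivAt (fun t : ℝ => (Real.log t) ^ (-κ))
      (t⁻¹ * (-κ) * (Real.log t) ^ (-κ - 1)) t :=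
    (Real.hasDerivAt_log (by positivity)).rpow_const (Or.inl hl.ne')
  have h2 := (hasDerivAt_id' t).fun_mul h1
  refine h2.congr_deriv ?_
  rw [Real.rpow_sub_one hl.ne']
  have : t ≠ 0 := by positivity
  field_simp
  ring

theorem t_A2 : S_A2 := by
  intro κ hκ hκ1 ε hε hε1
  refine ⟨⌈Real.exp (κ / ε)⌉₊ + 3, by omega, fun y hy => ?_⟩
  have hy' : ((⌈Real.exp (κ / ε)⌉₊ + 3 : ℕ) : ℝ) ≤ y := by exact_mod_cast hy
  push_cast at hy'
  have h1 : Real.exp (κ / ε) ≤ ⌈Real.exp (κ / ε)⌉₊ := Nat.le_ceil _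
  have h0 : 0 < Real.exp (κ / ε) := Real.exp_pos _
  have hy3 : (3 : ℝ) ≤ y := by linarith
  have hlt : (y : ℝ) - 1 < y := by linarith
  obtain ⟨ξ, hξ, hslope⟩ := exists_hasDerivAt_eq_slope (fun t : ℝ => t * (Real.log t) ^ (-κ))
    (fun t => (Real.log t) ^ (-κ) * (1 - κ / Real.log t)) hlt
    (by
      intro t ht
      exact (hasDeriv κ t (by linarith [ht.1])).continuousAt.continuousWithinAt)
    (by
      intro t ht
      exact hasDeriv κ t (by linarith [ht.1]))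
  rw [show (y : ℝ) - (y - 1) = 1 by ring, div_one] at hslope
  have hly : 0 < Real.log y := Real.log_pos (by linarith)
  have hly1 : 0 < Real.log ((y : ℝ) - 1) := Real.log_pos (by linarith)
  have hlξ : 0 < Real.log ξ := Real.log_pos (by linarith [hξ.1])
  have e1 : (y : ℝ) / (Real.log y) ^ κ = y * (Real.log y) ^ (-κ) := by
    rw [Real.rpow_neg hly.le, div_eq_mul_inv]
  have e2 : ((y : ℝ) - 1) / (Real.log ((y : ℝ) - 1)) ^ κ =
      ((y : ℝ) - 1) * (Real.log ((y : ℝ) - 1)) ^ (-κ) := by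
    rw [Real.rpow_neg hly1.le, div_eq_mul_inv]
  have e3 : (1 - ε) / (Real.log y) ^ κ = (1 - ε) * (Real.log y) ^ (-κ) := by
    rw [Real.rpow_neg hly.le, div_eq_mul_inv]
  rw [e1, e2, e3, ← hslope]
  have h2 : κ / Real.log ξ ≤ ε := by
    rw [div_le_iff₀ hlξ]
    have : κ / ε ≤ Real.log ξ := by
      rw [Real.le_log_iff_exp_le (by linarith [hξ.1])]
      linarith [hξ.1]
    rw [div_le_iff₀ hε] at this
    linarith
  have h3 : (Real.log y) ^ (-κ) ≤ (Real.log ξ) ^ (-κ) := by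
    apply Real.rpow_le_rpow_of_nonpos hlξ
    · exact Real.log_le_log (by linarith [hξ.1]) hξ.2.le
    · linarith
  have h4 : 0 ≤ (Real.log ξ) ^ (-κ) := Real.rpow_nonneg hlξ.le _
  calc (1 - ε) * (Real.log y) ^ (-κ) ≤ (1 - ε) * (Real.log ξ) ^ (-κ) := by
        gcongr
    _ ≤ (1 - κ / Real.log ξ) * (Real.log ξ) ^ (-κ) := by gcongr
    _ = _ := mul_comm _ _

end Pool.Agent.Q150.MM
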