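import Pool.Agent.Q147.MM.Stm
import Pool.Agent.Cov.PNT

/-!
# Project MM, job A3
-/

set_option autoImplicit false

namespace Pool.Agent.Q150.MM

open Finset Filter Topology
open Pool.Agent.Q147.MM

theorem t_A3 : S_A3 := by
  intro ε hε
  have h1 := Pool.Agent.Cov.PNT.pi_tendsto
  have h2 : ∀ᶠ x : ℝ in atTop, 1 - ε < (Nat.primeCounting ⌊x⌋₊ : ℝ) * Real.log x / x :=
    h1.eventually (lt_mem_nhds (by linarith))
  obtain ⟨x0, hx0⟩ := eventually_atTop.mp h2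
  set X : ℝ := max x0 2 with hX
  have hX2 : 2 ≤ X := le_max_right _ _
  refine ⟨⌈X ^ 2⌉₊ + 3, fun N hN y hy hyz => ?_⟩
  have hN' : ((⌈X ^ 2⌉₊ + 3 : ℕ) : ℝ) ≤ N := by exact_mod_cast hN
  push_cast at hN'
  have h3 : X ^ 2 ≤ ⌈X ^ 2⌉₊ := Nat.le_ceil _
  have hX20 : 0 ≤ X ^ 2 := by positivity
  have hN3 : (3 : ℝ) ≤ N := by linarith
  have hlog : 1 ≤ Real.log N := by
    rw [Real.le_log_iff_exp_le (by linarith)]
    linarith [Real.exp_one_lt_d9]
  have hsq : X ≤ √(N : ℝ) := by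
    rw [Real.le_sqrt' (by linarith)]
    linarith
  have hy0 : (0 : ℝ) < y := by exact_mod_cast hy
  have hyle : (y : ℝ) ≤ √(N : ℝ) := by
    have h4 : (y : ℝ) ≤ zz N := by exact_mod_cast hyz
    have h5 : (zz N : ℝ) ≤ √(N : ℝ) / Real.log N := by
      unfold zz
      exact Nat.floor_le (by positivity)
    have h6 : √(N : ℝ) / Real.log N ≤ √(N : ℝ) := div_le_self (Real.sqrt_nonneg _) hlog
    linarith
  have hx : X ≤ (N : ℝ) / y := by
    rw [le_div_iff₀ hy0]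
    calc X * y ≤ √(N : ℝ) * √(N : ℝ) := by gcongr
      _ = N := Real.mul_self_sqrt (by linarith)
  have h7 := hx0 ((N : ℝ) / y) (le_trans (le_max_left _ _) hx)
  rw [Nat.floor_div_eq_div] at h7
  have hxp : 0 < (N : ℝ) / y := by linarith
  have hlx : 0 < Real.log ((N : ℝ) / y) := Real.log_pos (by linarith)
  rw [div_le_iff₀ hlx]
  rw [lt_div_iff₀ hxp] at h7
  exact h7.le

end Pool.Agent.Q150.MM
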