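import Mathlib

/-!
# Project MM (helper35): the comparison function (job GB, second part)
-/

set_option autoImplicit false
set_option linter.unusedSectionVars false

namespace Pool.Agent.Q150.MMG

open Finset Function

variable {ι : Type} [DecidableEq ι]

/-- the comparison function -/
noncomputable def Ph (d t u : ℕ) (N : ι → ℕ) (S : Finset ι) (b : ι → ℕ) : ℝ :=
  (∏ l ∈ S, (b l : ℝ) ^ (d * (N l - u))) / ((S.sup b : ℕ) : ℝ) ^ (d * t)

theorem sup_pos {S : Finset ι} (hS : S.Nonempty) {b : ι → ℕ} (hb : ∀ l, 1 ≤ b l) :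
    (1 : ℝ) ≤ ((S.sup b : ℕ) : ℝ) := by
  obtain ⟨l, hl⟩ := hS
  have h1 : b l ≤ S.sup b := le_sup hl
  exact_mod_cast (hb l).trans h1

theorem one_le_Ph {d t u : ℕ} {N : ι → ℕ} {S : Finset ι} (hS : S.Nonempty) {b : ι → ℕ}
    (hb : ∀ l, 1 ≤ b l) (hN : ∀ l, u + t ≤ N l) : 1 ≤ Ph d t u N S b := by
  have h0 := sup_pos hS hb
  have hb' : ∀ l, (1 : ℝ) ≤ b l := fun l => by exact_mod_cast hb l
  obtain ⟨l0, hl0, hmax⟩ := exists_mem_eq_sup S hS b
  unfold Ph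
  rw [one_le_div (by positivity), hmax, ← mul_prod_erase S _ hl0]
  have h1 : ((b l0 : ℕ) : ℝ) ^ (d * t) ≤ (b l0 : ℝ) ^ (d * (N l0 - u)) := by
    refine pow_le_pow_right₀ (hb' l0) (Nat.mul_le_mul_left _ ?_)
    have := hN l0
    omega
  refine h1.trans (le_mul_of_one_le_right (by positivity) ?_)
  have h2 : ∏ _l ∈ S.erase l0, (1 : ℝ) ≤ ∏ l ∈ S.erase l0, (b l : ℝ) ^ (d * (N l - u)) :=
    prod_le_prod (fun _ _ => zero_le_one) fun l _ => one_le_pow₀ (hb' l)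
  rwa [prod_const_one] at h2

theorem Ph_split {d t u : ℕ} {N : ι → ℕ} {S : Finset ι} {b : ι → ℕ} {i : ι} (hi : i ∈ S) (ρ : ℕ) :
    Ph d t u N S (update b i ρ) = ((ρ : ℝ) ^ (d * (N i - u)) *
      ∏ l ∈ S.erase i, (b l : ℝ) ^ (d * (N l - u))) /
        ((S.sup (update b i ρ) : ℕ) : ℝ) ^ (d * t) := by
  unfold Ph
  rw [← mul_prod_erase S _ hi, update_self]
  congr 2
  refine prod_congr rfl fun l hl => ?_
  rw [update_of_ne (ne_of_mem_erase hl)]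

theorem sup_max {S : Finset ι} {b : ι → ℕ} {i : ι} (hi : i ∈ S) (hmax : ∀ l ∈ S, b l ≤ b i) :
    S.sup b = b i := le_antisymm (Finset.sup_le hmax) (le_sup hi)

theorem Ph_desc {d t u r : ℕ} {N : ι → ℕ} {S : Finset ι} {b : ι → ℕ} {i : ι} (hi : i ∈ S)
    (hb : ∀ l, 1 ≤ b l) (hmax : ∀ l ∈ S, b l ≤ b i) {ρ : ℕ} (hρ : 1 ≤ ρ) (hρb : ρ ≤ b i)
    (hN : u + t ≤ N i) (hr : u + t ≤ r) :
    Ph d t u N S (update b i ρ) * ((b i : ℝ) / ρ) ^ (d * (N i - r)) ≤ Ph d t u N S b := by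
  have hρR : (1 : ℝ) ≤ ρ := by exact_mod_cast hρ
  have hbR : (1 : ℝ) ≤ b i := by exact_mod_cast hb i
  have hρbR : (ρ : ℝ) ≤ b i := by exact_mod_cast hρb
  have hsup : (ρ : ℝ) ≤ ((S.sup (update b i ρ) : ℕ) : ℝ) := by
    have h1 : (update b i ρ) i ≤ S.sup (update b i ρ) := le_sup hi
    rw [update_self] at h1
    exact_mod_cast h1
  have hsup0 : (0 : ℝ) < ((S.sup (update b i ρ) : ℕ) : ℝ) := by linarith
  have e0 : Ph d t u N S b = ((b i : ℝ) ^ (d * (N i - u)) *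
      ∏ l ∈ S.erase i, (b l : ℝ) ^ (d * (N l - u))) / (b i : ℝ) ^ (d * t) := by
    unfold Ph
    rw [sup_max hi hmax, ← mul_prod_erase S _ hi]
  rw [Ph_split hi, e0]
  obtain ⟨R, hR⟩ : ∃ R : ℝ, R = ∏ l ∈ S.erase i, (b l : ℝ) ^ (d * (N l - u)) := ⟨_, rfl⟩
  rw [← hR]
  have hR0 : 0 ≤ R := by
    rw [hR]
    exact prod_nonneg fun _ _ => by positivity
  have hexp : d * (N i - u) = d * (N i - u - t) + d * t := by
    rw [← mul_add]
    congr 1
    omega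
  have h1 : ((ρ : ℝ) ^ (d * (N i - u)) * R) / ((S.sup (update b i ρ) : ℕ) : ℝ) ^ (d * t) ≤
      (ρ : ℝ) ^ (d * (N i - u - t)) * R := by
    rw [div_le_iff₀ (by positivity), hexp, pow_add]
    have h2 : (ρ : ℝ) ^ (d * t) ≤ ((S.sup (update b i ρ) : ℕ) : ℝ) ^ (d * t) :=
      pow_le_pow_left₀ (by linarith) hsup _
    calc (ρ : ℝ) ^ (d * (N i - u - t)) * (ρ : ℝ) ^ (d * t) * R
        = (ρ : ℝ) ^ (d * (N i - u - t)) * R * (ρ : ℝ) ^ (d * t) := by ring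
      _ ≤ _ := mul_le_mul_of_nonneg_left h2 (by positivity)
  have h2 : ((b i : ℝ) / ρ) ^ (d * (N i - r)) ≤ ((b i : ℝ) / ρ) ^ (d * (N i - u - t)) := by
    refine pow_le_pow_right₀ ?_ (Nat.mul_le_mul_left _ (by omega))
    rw [one_le_div (by linarith)]
    exact hρbR
  calc ((ρ : ℝ) ^ (d * (N i - u)) * R) / ((S.sup (update b i ρ) : ℕ) : ℝ) ^ (d * t) *
        ((b i : ℝ) / ρ) ^ (d * (N i - r))
      ≤ ((ρ : ℝ) ^ (d * (N i - u - t)) * R) * ((b i : ℝ) / ρ) ^ (d * (N i - u - t)) :=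
        mul_le_mul h1 h2 (by positivity) (by positivity)
    _ = (b i : ℝ) ^ (d * (N i - u - t)) * R := by
        rw [div_pow]
        field_simp
    _ = ((b i : ℝ) ^ (d * (N i - u)) * R) / (b i : ℝ) ^ (d * t) := by
        rw [hexp, pow_add]
        field_simp

theorem Ph_err {d t u m s : ℕ} {N : ι → ℕ} {S : Finset ι} {b : ι → ℕ} {i : ι} (hi : i ∈ S)
    (hb : ∀ l, 1 ≤ b l) (hmax : ∀ l ∈ S, b l ≤ b i) {ρ : ℕ} (hρ : 1 ≤ ρ)
    {q : ℝ} (hq : 1 ≤ q) (hbq : (b i : ℝ) ≤ q * ρ) (hcard : S.card + 1 = s)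
    (hN : ∀ l, u * (s - 1) + t ≤ N l) (hs : 2 ≤ s) (hm : d * N i ≤ m) :
    ∏ l ∈ S.erase i, (b l : ℝ) ^ (d * N l) ≤ q ^ m * Ph d t u N S (update b i ρ) := by
  have hρR : (1 : ℝ) ≤ ρ := by exact_mod_cast hρ
  have hqρ : 1 ≤ q * ρ := by nlinarith
  have hbl : ∀ l ∈ S, (b l : ℝ) ≤ q * ρ := fun l hl => by
    have h1 : (b l : ℝ) ≤ b i := by exact_mod_cast hmax l hl
    exact h1.trans hbq
  have hsup : ((S.sup (update b i ρ) : ℕ) : ℝ) ≤ q * ρ := by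
    obtain ⟨l0, hl0, hmx⟩ := exists_mem_eq_sup S ⟨i, hi⟩ (update b i ρ)
    rw [hmx]
    by_cases h : l0 = i
    · rw [h, update_self]
      nlinarith
    · rw [update_of_ne h]
      exact hbl l0 hl0
  have hsup1 : (1 : ℝ) ≤ ((S.sup (update b i ρ) : ℕ) : ℝ) := by
    refine sup_pos ⟨i, hi⟩ fun l => ?_
    by_cases h : l = i
    · rw [h, update_self]
      exact hρ
    · rw [update_of_ne h]
      exact hb l
  rw [Ph_split hi, ← mul_div_assoc, le_div_iff₀ (by positivity)]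
  have huN : ∀ l, u ≤ N l := fun l => by
    have h1 := hN l
    have h2 : u * 1 ≤ u * (s - 1) := Nat.mul_le_mul_left _ (by omega)
    omega
  have h1 : ∏ l ∈ S.erase i, (b l : ℝ) ^ (d * N l) =
      (∏ l ∈ S.erase i, (b l : ℝ) ^ (d * (N l - u))) * ∏ l ∈ S.erase i, (b l : ℝ) ^ (d * u) := by
    rw [← prod_mul_distrib]
    refine prod_congr rfl fun l _ => ?_
    rw [← pow_add, ← mul_add]
    congr 2
    have := huN l
    omega
  have h2 : ∏ l ∈ S.erase i, (b l : ℝ) ^ (d * u) ≤ (q * ρ) ^ (d * u * (s - 2)) := by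
    have h3 : ∏ l ∈ S.erase i, (b l : ℝ) ^ (d * u) ≤ ∏ _l ∈ S.erase i, (q * ρ) ^ (d * u) :=
      prod_le_prod (fun _ _ => by positivity) fun l hl =>
        pow_le_pow_left₀ (Nat.cast_nonneg _) (hbl l (mem_of_mem_erase hl)) _
    refine h3.trans (le_of_eq ?_)
    rw [prod_const, ← pow_mul, card_erase_of_mem hi]
    congr 2
    omega
  have h3 : ((S.sup (update b i ρ) : ℕ) : ℝ) ^ (d * t) ≤ (q * ρ) ^ (d * t) :=
    pow_le_pow_left₀ (by linarith) hsup _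
  have h4 : (q * ρ) ^ (d * u * (s - 2)) * (q * ρ) ^ (d * t) ≤ q ^ m * (ρ : ℝ) ^ (d * (N i - u)) := by
    rw [← pow_add, mul_pow]
    have h5 : d * u * (s - 2) + d * t ≤ d * (N i - u) := by
      rw [mul_assoc, ← mul_add]
      refine Nat.mul_le_mul_left _ ?_
      have h6 := hN i
      have h7 : u * (s - 1) = u * (s - 2) + u := by
        have : s - 1 = (s - 2) + 1 := by omega
        rw [this, mul_add, mul_one]
      omega
    have h8 : d * (N i - u) ≤ m := (Nat.mul_le_mul_left _ (Nat.sub_le _ _)).trans hm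
    exact mul_le_mul (pow_le_pow_right₀ hq (h5.trans h8)) (pow_le_pow_right₀ hρR h5)
      (by positivity) (by positivity)
  obtain ⟨R, hR⟩ : ∃ R : ℝ, R = ∏ l ∈ S.erase i, (b l : ℝ) ^ (d * (N l - u)) := ⟨_, rfl⟩
  have hR0 : 0 ≤ R := by
    rw [hR]
    exact prod_nonneg fun _ _ => by positivity
  rw [h1, ← hR]
  calc R * (∏ l ∈ S.erase i, (b l : ℝ) ^ (d * u)) * ((S.sup (update b i ρ) : ℕ) : ℝ) ^ (d * t)
      = R * ((∏ l ∈ S.erase i, (b l : ℝ) ^ (d * u)) * ((S.sup (update b i ρ) : ℕ) : ℝ) ^ (d * t)) := by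
        ring
    _ ≤ R * ((q * ρ) ^ (d * u * (s - 2)) * (q * ρ) ^ (d * t)) := by
        refine mul_le_mul_of_nonneg_left ?_ hR0
        exact mul_le_mul h2 h3 (by positivity) (by positivity)
    _ ≤ R * (q ^ m * (ρ : ℝ) ^ (d * (N i - u))) := mul_le_mul_of_nonneg_left h4 hR0
    _ = _ := by ring

end Pool.Agent.Q150.MMG
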