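import Pool.Agent.Q150.MM.GbA
import Pool.Agent.Q150.MM.GbB

/-!
# Project MM (helper35): the bound for the degenerate tuples (job GB)

`S_GB` of `Pool.Agent.Q35.MM.Stm`.
-/

set_option autoImplicit false

namespace Pool.Agent.Q150.MMG

open Finset Function Pool.Agent.Q35.MM

theorem card_Q2 {K : Type} [Field K] [NumberField K] {ι : Type} [Fintype ι] [DecidableEq ι]
    {n : ι → ℕ} {i j : ι} (hij : i ≠ j) (b : ι → ℕ) :
    (Q2 K n i j b).card ≤ ∏ l ∈ (univ.erase j).erase i, (bx K (n l + 1) (b l)).card := by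
  classical
  unfold Q2
  rw [Fintype.card_piFinset, ← mul_prod_erase univ _ (mem_univ j), if_pos (Or.inl rfl),
    card_singleton, one_mul, ← mul_prod_erase (univ.erase j) _ (mem_erase.2 ⟨hij, mem_univ i⟩),
    if_pos (Or.inr rfl), card_singleton, one_mul]
  refine prod_le_prod' fun l hl => ?_
  have h1 : l ≠ i := ne_of_mem_erase hl
  have h2 : l ≠ j := ne_of_mem_erase (mem_of_mem_erase hl)
  rw [if_neg (by rintro (h | h); exacts [h2 h, h1 h])]
  exact card_filter_le _ _

/-- **GB** -/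
theorem gb (hAD : S_AD) (hDB : S_DB) : S_GB := by
  classical
  intro K _ _ ι _ _ n r u t hs hut hn δ hδ
  by_cases hr : ∀ i, r ≤ n i + 1
  swap
  · push Not at hr
    obtain ⟨i0, hi0⟩ := hr
    refine ⟨0, le_rfl, fun g hg j i hij b hb => ?_⟩
    exfalso
    obtain ⟨j0, hj0⟩ : ∃ j0, i0 ≠ j0 := by
      by_cases h : i0 = j
      · exact ⟨i, fun h' => hij (h' ▸ h)⟩
      · exact ⟨j, h⟩
    have h1 := hg i0 j0 hj0 (fun _ _ => 1) (fun l _ _ h0 => by
      have h2 := congrFun h0 0
      exact one_ne_zero h2)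
    have h2 := Matrix.rank_le_card_height (mat g (fun _ _ => 1) i0 j0)
    rw [Fintype.card_fin] at h2
    omega
  obtain ⟨d, hd⟩ : ∃ d, d = dg K := ⟨_, rfl⟩
  obtain ⟨m, hm⟩ : ∃ m, m = d * ∑ l, (n l + 1) := ⟨_, rfl⟩
  have hmN : ∀ i, d * (n i + 1) ≤ m := fun i => by
    rw [hm]
    exact Nat.mul_le_mul_left _ (single_le_sum (f := fun l => n l + 1) (fun _ _ => Nat.zero_le _)
      (mem_univ i))
  have hN : ∀ l, u + t ≤ n l + 1 := fun l => by
    have h1 := hn l
    have h2 : u * 1 ≤ u * (Fintype.card ι - 1) := Nat.mul_le_mul_left _ (by omega)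
    omega
  -- the constants of the boxes
  obtain ⟨cl, hcl⟩ : ∃ cl : ι → ℝ, cl = fun l => 3 ^ (dg K * (n l + 1)) *
    ((bx K (n l + 1) 1).card : ℝ) := ⟨_, rfl⟩
  have hcl1 : ∀ l, 1 ≤ cl l := by
    intro l
    rw [hcl]
    have h1 : (1 : ℝ) ≤ ((bx K (n l + 1) 1).card : ℝ) := by
      exact_mod_cast card_pos.2 ⟨0, bx_zero (n l + 1) 1⟩
    have h2 : (1 : ℝ) ≤ 3 ^ (dg K * (n l + 1)) := one_le_pow₀ (by norm_num)
    show (1 : ℝ) ≤ 3 ^ (dg K * (n l + 1)) * ((bx K (n l + 1) 1).card : ℝ)
    nlinarith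
  obtain ⟨D, hD⟩ : ∃ D : ℝ, D = ∏ l, cl l := ⟨_, rfl⟩
  have hD0 : 0 ≤ D := by
    rw [hD]
    exact prod_nonneg fun l _ => by linarith [hcl1 l]
  have hj : ∀ j : ι, ∃ C : ℝ, 0 ≤ C ∧ ∀ g : Frm K n, RkGe r g → ∀ b : ι → ℕ, (∀ l, 1 ≤ b l) →
      ((WW g j b).card : ℝ) ≤ C * Ph d t u (fun l => n l + 1) (univ.erase j) b *
        (∏ l ∈ univ.erase j, (b l : ℝ)) ^ (2 * (δ / 2)) := by
    intro j
    have hne : (univ.erase j).Nonempty := by
      rw [← card_pos, card_erase_of_mem (mem_univ j), card_univ]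
      omega
    have hcard : (univ.erase j).card + 1 = Fintype.card ι := by
      rw [card_erase_of_mem (mem_univ j), card_univ]
      omega
    obtain ⟨C, hC, hC'⟩ := hAD ι (univ.erase j) (fun i => d * (n i + 1 - r)) m (δ / 2) hne
      (by positivity) (fun i => (Nat.mul_le_mul_left _ (Nat.sub_le _ _)).trans (hmN i))
      (Ph d t u (fun l => n l + 1) (univ.erase j)) (fun b hb => one_le_Ph hne hb hN)
      (fun b i ρ hb hi hmax hρ hρb => Ph_desc hi hb hmax hρ hρb (hN i) hut) D
      (fun c => ((∏ l ∈ univ.erase j, (bx K (n l + 1) c).card : ℕ) : ℝ)) hD0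
    refine ⟨C, hC, fun g hg b hb => ?_⟩
    refine hC' (fun b => ((WW g j b).card : ℝ)) (fun b => Nat.cast_nonneg _) ?_ ?_ b hb
    · intro b c hbc
      have h1 : WW g j b ⊆ Fintype.piFinset fun l => if l = j then {0} else bx K (n l + 1) c := by
        intro P hP
        rw [mem_WW] at hP
        rw [Fintype.mem_piFinset]
        intro l
        by_cases hl : l = j
        · rw [if_pos hl, mem_singleton]
          subst hl
          exact hP.1
        · rw [if_neg hl]
          exact bx_mono (hbc l (mem_erase.2 ⟨hl, mem_univ l⟩)) (hP.2.1 l hl).1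
      have h2 := card_le_card h1
      rw [Fintype.card_piFinset, ← mul_prod_erase univ _ (mem_univ j), if_pos rfl, card_singleton,
        one_mul] at h2
      have h3 : ∏ l ∈ univ.erase j, (if l = j then ({0} : Finset (Fin (n l + 1) → K)) else
          bx K (n l + 1) c).card = ∏ l ∈ univ.erase j, (bx K (n l + 1) c).card :=
        prod_congr rfl fun l hl => by rw [if_neg (ne_of_mem_erase hl)]
      rw [h3] at h2
      exact_mod_cast h2
    · intro b i ρ q hb hi hmax hρ hρb hq hbq
      have hij : i ≠ j := ne_of_mem_erase hi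
      have h1 := step hDB hg hij hρ hρb
      rw [← hd] at h1
      refine h1.trans ?_
      refine mul_le_mul_of_nonneg_left ?_ (by positivity)
      refine add_le_add le_rfl ?_
      have h2 : ((Q2 K n i j b).card : ℝ) ≤
          ∏ l ∈ (univ.erase j).erase i, ((bx K (n l + 1) (b l)).card : ℝ) := by
        exact_mod_cast card_Q2 hij b
      have h3 : ∏ l ∈ (univ.erase j).erase i, ((bx K (n l + 1) (b l)).card : ℝ) ≤
          ∏ l ∈ (univ.erase j).erase i, (cl l * (b l : ℝ) ^ (d * (n l + 1))) := by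
        refine prod_le_prod (fun _ _ => Nat.cast_nonneg _) fun l _ => ?_
        have h4 := card_bx (K := K) hDB (n l + 1) (hb l)
        rw [hcl, hd]
        exact h4
      have h4 : ∏ l ∈ (univ.erase j).erase i, cl l ≤ D := by
        rw [hD, ← mul_prod_erase univ _ (mem_univ j), ← mul_prod_erase (univ.erase j) _ hi]
        have h5 : 0 ≤ ∏ l ∈ (univ.erase j).erase i, cl l :=
          prod_nonneg fun l _ => by linarith [hcl1 l]
        have h6 : ∏ l ∈ (univ.erase j).erase i, cl l ≤ cl i * ∏ l ∈ (univ.erase j).erase i, cl l :=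
          le_mul_of_one_le_left h5 (hcl1 i)
        exact h6.trans (le_mul_of_one_le_left (h5.trans h6) (hcl1 j))
      have h5 := Ph_err (d := d) (t := t) (u := u) (m := m) (s := Fintype.card ι)
        (N := fun l => n l + 1) hi hb hmax hρ hq hbq hcard hn hs (hmN i)
      have h6 : (1 : ℝ) ≤ (∏ l ∈ univ.erase j, (b l : ℝ)) ^ (δ / 2) := by
        refine Real.one_le_rpow ?_ (by positivity)
        have h7 : ∏ _l ∈ univ.erase j, (1 : ℝ) ≤ ∏ l ∈ univ.erase j, (b l : ℝ) :=
          prod_le_prod (fun _ _ => zero_le_one) fun l _ => by exact_mod_cast hb l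
        rwa [prod_const_one] at h7
      have hPh : 0 ≤ Ph d t u (fun l => n l + 1) (univ.erase j) (update b i ρ) := by
        have := one_le_Ph (d := d) (t := t) (u := u) (N := fun l => n l + 1) hne
          (b := update b i ρ) (fun l => by
            by_cases h : l = i
            · rw [h, update_self]
              exact hρ
            · rw [update_of_ne h]
              exact hb l) hN
        linarith
      rw [prod_mul_distrib] at h3
      calc ((Q2 K n i j b).card : ℝ)
          ≤ (∏ l ∈ (univ.erase j).erase i, cl l) *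
            ∏ l ∈ (univ.erase j).erase i, (b l : ℝ) ^ (d * (n l + 1)) := h2.trans h3
        _ ≤ D * (q ^ m * Ph d t u (fun l => n l + 1) (univ.erase j) (update b i ρ)) :=
            mul_le_mul h4 h5 (prod_nonneg fun _ _ => by positivity) hD0
        _ = D * q ^ m * 1 * Ph d t u (fun l => n l + 1) (univ.erase j) (update b i ρ) := by ring
        _ ≤ D * q ^ m * (∏ l ∈ univ.erase j, (b l : ℝ)) ^ (δ / 2) *
            Ph d t u (fun l => n l + 1) (univ.erase j) (update b i ρ) := by
            refine mul_le_mul_of_nonneg_right ?_ hPh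
            exact mul_le_mul_of_nonneg_left h6 (by positivity)
  choose C hC0 hC using hj
  refine ⟨∑ j, C j, sum_nonneg fun j _ => hC0 j, fun g hg j i hij b hb => ?_⟩
  have hbR : ∀ l, (1 : ℝ) ≤ b l := fun l => by exact_mod_cast hb l
  have h1 := hC j g hg b hb
  have hi : i ∈ univ.erase j := mem_erase.2 ⟨hij, mem_univ i⟩
  have hsup : (b i : ℝ) ≤ (((univ.erase j).sup b : ℕ) : ℝ) := by
    exact_mod_cast (le_sup hi : b i ≤ (univ.erase j).sup b)
  have hsup0 : (0 : ℝ) < (((univ.erase j).sup b : ℕ) : ℝ) := by linarith [hbR i]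
  have h2 : Ph d t u (fun l => n l + 1) (univ.erase j) b * (b i : ℝ) ^ (d * t) ≤
      ∏ l ∈ univ.erase j, (b l : ℝ) ^ (d * (n l + 1 - u)) := by
    unfold Ph
    rw [div_mul_eq_mul_div, div_le_iff₀ (by positivity)]
    exact mul_le_mul_of_nonneg_left (pow_le_pow_left₀ (by linarith [hbR i]) hsup _)
      (prod_nonneg fun _ _ => by positivity)
  have h3 : C j ≤ ∑ j, C j := single_le_sum (f := C) (fun j _ => hC0 j) (mem_univ j)
  have hP : 0 ≤ (∏ l ∈ univ.erase j, (b l : ℝ)) ^ (2 * (δ / 2)) :=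
    Real.rpow_nonneg (prod_nonneg fun _ _ => Nat.cast_nonneg _) _
  have hPr : 0 ≤ ∏ l ∈ univ.erase j, (b l : ℝ) ^ (d * (n l + 1 - u)) :=
    prod_nonneg fun _ _ => by positivity
  rw [← hd]
  have e : 2 * (δ / 2) = δ := by ring
  rw [e] at h1 hP
  calc ((WW g j b).card : ℝ) * (b i : ℝ) ^ (d * t)
      ≤ C j * Ph d t u (fun l => n l + 1) (univ.erase j) b *
        (∏ l ∈ univ.erase j, (b l : ℝ)) ^ δ * (b i : ℝ) ^ (d * t) :=
        mul_le_mul_of_nonneg_right h1 (by positivity)
    _ = C j * (Ph d t u (fun l => n l + 1) (univ.erase j) b * (b i : ℝ) ^ (d * t)) *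
        (∏ l ∈ univ.erase j, (b l : ℝ)) ^ δ := by ring
    _ ≤ (∑ j, C j) * (∏ l ∈ univ.erase j, (b l : ℝ) ^ (d * (n l + 1 - u))) *
        (∏ l ∈ univ.erase j, (b l : ℝ)) ^ δ := by
        refine mul_le_mul_of_nonneg_right ?_ hP
        exact (mul_le_mul_of_nonneg_left h2 (hC0 j)).trans (mul_le_mul_of_nonneg_right h3 hPr)

end Pool.Agent.Q150.MMG
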