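import Pool.Agent.Q35.MM.Stm

/-!
# Project MM (helper35): the descent step for the degenerate tuples (job GB, first part)
-/

set_option autoImplicit false

namespace Pool.Agent.Q150.MMG

open Finset Function Pool.Agent.Q35.MM

section sub

variable {K : Type} [Field K] {ι : Type} [DecidableEq ι] {n : ι → ℕ}

/-- the `i`-th vectors which complete `Q` to a degenerate tuple -/
def VQ (g : Frm K n) (Q : Tup K n) (i j : ι) : Submodule K (Fin (n i + 1) → K) :=
  ⨅ x : Fin (n j + 1) → K, LinearMap.ker (g.toLinearMap (update Q j x) i)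

theorem mem_VQ (g : Frm K n) (Q : Tup K n) {i j : ι} (hij : i ≠ j) (z : Fin (n i + 1) → K) :
    z ∈ VQ g Q i j ↔ g.toLinearMap (update Q i z) j = 0 := by
  unfold VQ
  rw [Submodule.mem_iInf]
  constructor
  · intro h
    refine LinearMap.ext fun x => ?_
    show g (update (update Q i z) j x) = 0
    rw [update_comm hij]
    exact h x
  · intro h x
    show g (update (update Q j x) i z) = 0
    rw [update_comm hij.symm]
    exact LinearMap.congr_fun h x

theorem finrank_VQ (g : Frm K n) (Q : Tup K n) {i j : ι} (hij : i ≠ j) {r : ℕ}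
    (hr : r ≤ (mat g Q i j).rank) : Module.finrank K (VQ g Q i j) ≤ n i + 1 - r := by
  have h1 : VQ g Q i j ≤ LinearMap.ker (mat g Q i j).transpose.mulVecLin := by
    intro z hz
    rw [LinearMap.mem_ker, Matrix.mulVecLin_apply]
    funext b
    have h2 : g.toLinearMap (update Q j (Pi.single b 1)) i z = 0 := by
      have h3 := (Submodule.mem_iInf _).1 hz (Pi.single b 1)
      exact h3
    rw [LinearMap.pi_apply_eq_sum_univ] at h2
    rw [Matrix.mulVec, dotProduct]
    show ∑ a, (mat g Q i j) a b * z a = 0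
    rw [← h2]
    refine sum_congr rfl fun a _ => ?_
    rw [smul_eq_mul, mul_comm]
    congr 1
    show g (update (update Q i (Pi.single a 1)) j (Pi.single b 1)) =
      g (update (update Q j (Pi.single b 1)) i fun j => if a = j then 1 else 0)
    rw [update_comm hij]
    congr 2
    funext x
    rw [Pi.single_apply]
    by_cases hx : a = x
    · rw [if_pos hx, if_pos hx.symm]
    · rw [if_neg hx, if_neg (fun h => hx h.symm)]
  have h2 := LinearMap.finrank_range_add_finrank_ker (mat g Q i j).transpose.mulVecLin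
  rw [Module.finrank_fin_fun] at h2
  have h3 : Module.finrank K (LinearMap.range (mat g Q i j).transpose.mulVecLin) =
      (mat g Q i j).rank := by
    rw [← Matrix.rank_transpose]
    rfl
  have h4 := Submodule.finrank_mono h1
  omega

end sub

section fib

variable {K : Type} [Field K] [NumberField K] {ι : Type} [Fintype ι] [DecidableEq ι] {n : ι → ℕ}

open Classical in
/-- the tuples without the vectors `i` and `j` -/
noncomputable def Q2 (K : Type) [Field K] [NumberField K] (n : ι → ℕ) (i j : ι) (b : ι → ℕ) :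
    Finset (Tup K n) :=
  Fintype.piFinset fun l => if l = j ∨ l = i then {0} else (bx K (n l + 1) (b l)).filter (· ≠ 0)

open Classical in
/-- the `i`-th vectors -/
noncomputable def ZQ (g : Frm K n) (Q : Tup K n) (i j : ι) (c : ℕ) :
    Finset (Fin (n i + 1) → K) :=
  (bx K (n i + 1) c).filter fun z => z ≠ 0 ∧ z ∈ VQ g Q i j

open Classical in
theorem mem_WW (g : Frm K n) (j : ι) (b : ι → ℕ) (P : Tup K n) : P ∈ WW g j b ↔
    P j = 0 ∧ (∀ l, l ≠ j → P l ∈ bx K (n l + 1) (b l) ∧ P l ≠ 0) ∧ g.toLinearMap P j = 0 := by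
  unfold WW QQ
  rw [mem_filter, Fintype.mem_piFinset]
  constructor
  · rintro ⟨h1, h2⟩
    refine ⟨?_, ?_, h2⟩
    · have h3 := h1 j
      rw [if_pos rfl, mem_singleton] at h3
      exact h3
    · intro l hl
      have h3 := h1 l
      rw [if_neg hl, mem_filter] at h3
      exact h3
  · rintro ⟨h1, h2, h3⟩
    refine ⟨?_, h3⟩
    intro l
    by_cases hl : l = j
    · rw [if_pos hl, mem_singleton]
      subst hl
      exact h1
    · rw [if_neg hl, mem_filter]
      exact h2 l hl

open Classical in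
theorem mem_Q2 {i j : ι} (b : ι → ℕ) (Q : Tup K n) : Q ∈ Q2 K n i j b ↔
    Q j = 0 ∧ Q i = 0 ∧ ∀ l, l ≠ j → l ≠ i → Q l ∈ bx K (n l + 1) (b l) ∧ Q l ≠ 0 := by
  unfold Q2
  rw [Fintype.mem_piFinset]
  constructor
  · intro h
    refine ⟨?_, ?_, ?_⟩
    · have h3 := h j
      rw [if_pos (Or.inl rfl), mem_singleton] at h3
      exact h3
    · have h3 := h i
      rw [if_pos (Or.inr rfl), mem_singleton] at h3
      exact h3
    · intro l hl hl'
      have h3 := h l
      rw [if_neg (by rintro (h | h); exacts [hl h, hl' h]), mem_filter] at h3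
      exact h3
  · rintro ⟨h1, h2, h3⟩ l
    by_cases hl : l = j
    · rw [if_pos (Or.inl hl), mem_singleton]
      subst hl
      exact h1
    by_cases hl' : l = i
    · rw [if_pos (Or.inr hl'), mem_singleton]
      subst hl'
      exact h2
    · rw [if_neg (by rintro (h | h); exacts [hl h, hl' h]), mem_filter]
      exact h3 l hl hl'

open Classical in
/-- the number of the elements of a fibre -/
theorem card_fib (g : Frm K n) {i j : ι} (hij : i ≠ j) (b : ι → ℕ) {Q : Tup K n}
    (hQ : Q ∈ Q2 K n i j b) :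
    ((WW g j b).filter fun P => update P i 0 = Q).card = (ZQ g Q i j (b i)).card := by
  rw [mem_Q2] at hQ
  obtain ⟨q1, q2, q3⟩ := hQ
  refine Finset.card_bij (fun P _ => P i) ?_ ?_ ?_
  · intro P hP
    rw [mem_filter, mem_WW] at hP
    obtain ⟨⟨h1, h2, h3⟩, h4⟩ := hP
    unfold ZQ
    rw [mem_filter, mem_VQ g Q hij]
    refine ⟨(h2 i hij).1, (h2 i hij).2, ?_⟩
    have h5 : update Q i (P i) = P := by
      rw [← h4, update_idem, update_eq_self]
    rw [h5]
    exact h3
  · intro P hP P' hP' he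
    rw [mem_filter] at hP hP'
    have h5 : update Q i (P i) = P := by
      rw [← hP.2, update_idem, update_eq_self]
    have h6 : update Q i (P' i) = P' := by
      rw [← hP'.2, update_idem, update_eq_self]
    rw [← h5, ← h6, he]
  · intro z hz
    unfold ZQ at hz
    rw [mem_filter, mem_VQ g Q hij] at hz
    refine ⟨update Q i z, ?_, update_self _ _ _⟩
    rw [mem_filter, mem_WW]
    refine ⟨⟨?_, ?_, hz.2.2⟩, ?_⟩
    · rw [update_of_ne hij.symm]
      exact q1
    · intro l hl
      by_cases hli : l = i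
      · subst hli
        rw [update_self]
        exact ⟨hz.1, hz.2.1⟩
      · rw [update_of_ne hli]
        exact q3 l hl hli
    · rw [update_idem, ← q2, update_eq_self]

open Classical in
theorem card_WW (g : Frm K n) {i j : ι} (hij : i ≠ j) (b : ι → ℕ) :
    (WW g j b).card = ∑ Q ∈ Q2 K n i j b, (ZQ g Q i j (b i)).card := by
  rw [Finset.card_eq_sum_card_fiberwise (f := fun P => update P i 0) (t := Q2 K n i j b)]
  · exact sum_congr rfl fun Q hQ => card_fib g hij b hQ
  · intro P hP
    rw [mem_coe, mem_WW] at hP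
    rw [mem_coe, mem_Q2]
    obtain ⟨h1, h2, h3⟩ := hP
    refine ⟨?_, update_self _ _ _, ?_⟩
    · show update P i 0 j = 0
      rw [update_of_ne hij.symm]
      exact h1
    · intro l hl hl'
      show update P i 0 l ∈ _ ∧ update P i 0 l ≠ 0
      rw [update_of_ne hl']
      exact h2 l hl

theorem Q2_update {i j : ι} (b : ι → ℕ) (ρ : ℕ) : Q2 K n i j (update b i ρ) = Q2 K n i j b := by
  classical
  ext Q
  rw [mem_Q2, mem_Q2]
  refine and_congr Iff.rfl (and_congr Iff.rfl (forall_congr' fun l => forall_congr' fun hl =>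
    forall_congr' fun hl' => ?_))
  rw [update_of_ne hl']

theorem bx_zero (m b : ℕ) : (0 : Fin m → K) ∈ bx K m b := by
  rw [mem_bx]
  intro a
  refine ⟨isIntegral_zero, fun φ => ?_⟩
  rw [Pi.zero_apply, map_zero, norm_zero]
  exact Nat.cast_nonneg b

theorem bx_mono {m b c : ℕ} (h : b ≤ c) : bx K m b ⊆ bx K m c := by
  intro x hx
  rw [mem_bx] at hx ⊢
  intro a
  refine ⟨(hx a).1, fun φ => ((hx a).2 φ).trans ?_⟩
  exact_mod_cast h

/-- the step in one fibre -/
theorem card_ZQ (hDB : S_DB) {r : ℕ} {g : Frm K n} (hg : RkGe r g) {i j : ι} (hij : i ≠ j)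
    {b : ι → ℕ} {Q : Tup K n} (hQ : Q ∈ Q2 K n i j b) {c ρ : ℕ} (hρ : 1 ≤ ρ) (hρc : ρ ≤ c) :
    ((ZQ g Q i j c).card : ℝ) ≤ (3 * c / ρ) ^ (dg K * (n i + 1 - r)) *
      ((ZQ g Q i j ρ).card + 1) := by
  classical
  rw [mem_Q2] at hQ
  have hfr := finrank_VQ g Q hij (hg i j hij Q fun l hl hl' => (hQ.2.2 l hl' hl).2)
  have h1 := hDB K (n i + 1) (VQ g Q i j) (n i + 1 - r) hfr c ρ hρ hρc
  have h2 : (ZQ g Q i j c).card ≤ ((bx K (n i + 1) c).filter (· ∈ VQ g Q i j)).card := by
    apply card_le_card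
    intro z hz
    unfold ZQ at hz
    rw [mem_filter] at hz ⊢
    exact ⟨hz.1, hz.2.2⟩
  have h3 : ((bx K (n i + 1) ρ).filter (· ∈ VQ g Q i j)).card ≤ (ZQ g Q i j ρ).card + 1 := by
    have h4 : (bx K (n i + 1) ρ).filter (· ∈ VQ g Q i j) ⊆ insert 0 (ZQ g Q i j ρ) := by
      intro z hz
      rw [mem_filter] at hz
      rw [mem_insert]
      by_cases h0 : z = 0
      · exact Or.inl h0
      · right
        unfold ZQ
        rw [mem_filter]
        exact ⟨hz.1, h0, hz.2⟩
    exact (card_le_card h4).trans (card_insert_le _ _)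
  have hb : (0 : ℝ) ≤ 3 * (c : ℝ) / ρ := by positivity
  calc ((ZQ g Q i j c).card : ℝ) ≤ (((bx K (n i + 1) c).filter (· ∈ VQ g Q i j)).card : ℝ) := by
        exact_mod_cast h2
    _ ≤ _ := h1
    _ ≤ _ := by
        refine mul_le_mul_of_nonneg_left ?_ (by positivity)
        exact_mod_cast h3

/-- the step -/
theorem step (hDB : S_DB) {r : ℕ} {g : Frm K n} (hg : RkGe r g) {i j : ι} (hij : i ≠ j)
    {b : ι → ℕ} {ρ : ℕ} (hρ : 1 ≤ ρ) (hρc : ρ ≤ b i) :
    ((WW g j b).card : ℝ) ≤ (3 * (b i : ℝ) / ρ) ^ (dg K * (n i + 1 - r)) *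
      ((WW g j (update b i ρ)).card + (Q2 K n i j b).card) := by
  classical
  have h1 := card_WW g hij b
  have h2 := card_WW g hij (update b i ρ)
  rw [Q2_update, update_self] at h2
  rw [h1, h2]
  push_cast
  have h3 : (∑ Q ∈ Q2 K n i j b, ((ZQ g Q i j ρ).card : ℝ)) + ((Q2 K n i j b).card : ℝ) =
      ∑ Q ∈ Q2 K n i j b, (((ZQ g Q i j ρ).card : ℝ) + 1) := by
    rw [sum_add_distrib, sum_const, nsmul_eq_mul, mul_one]
  rw [h3, mul_sum]
  exact sum_le_sum fun Q hQ => card_ZQ hDB hg hij hQ hρ hρc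

/-- the number of elements of a box -/
theorem card_bx (hDB : S_DB) (m : ℕ) {b : ℕ} (hb : 1 ≤ b) :
    ((bx K m b).card : ℝ) ≤ (3 ^ (dg K * m) * ((bx K m 1).card : ℝ)) * (b : ℝ) ^ (dg K * m) := by
  classical
  have h1 := hDB K m ⊤ m (by rw [finrank_top, Module.finrank_fin_fun]) b 1 le_rfl hb
  have h2 : ∀ c : ℕ, (bx K m c).filter (· ∈ (⊤ : Submodule K (Fin m → K))) = bx K m c := by
    intro c
    rw [filter_true_of_mem]
    intro x _
    exact Submodule.mem_top
  rw [h2, h2, Nat.cast_one, div_one, mul_pow] at h1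
  calc ((bx K m b).card : ℝ) ≤ _ := h1
    _ = _ := by ring

end fib

end Pool.Agent.Q150.MMG
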